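import Pool.Agent.Helper41.TY.CenFnE
import Pool.Agent.Helper91.TY.GlueB

/-!
MP_8ee768_co, project TH-Y', stages E and B1a: the letters of a pair, the product of two lists of entries.
-/

set_option autoImplicit false
set_option maxRecDepth 100000
set_option exponentiation.threshold 2000000

namespace Pool.Agent.Helper41.TY

open Pool.Agent.Helper97.CV
open Pool.Agent.Helper63.SIMD
open Pool.Agent.Helper79.CV
open Pool.Agent.Helper33.CV
open Pool.Agent.Helper82.TY (Lay)
open Pool.Agent.Helper63.TY (Cb Acc loopL acc_loopL)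
open Pool.Agent.Helper52.TY (LYL LZL)
open Pool.Agent.Helper91.TY hiding Acc
open Pool.Agent.Helper38.TY
open Pool.Agent.Helper49.TY

theorem wYE_perm : ∀ y x : Fin 13, y ≠ x → y < 12 → x < 12 →
    okW 11 (wY (zl y.val x.val)) (lenY (zl y.val x.val)) = true ∧
      ∀ a, wpc (prs (wY (zl y.val x.val)) (lenY (zl y.val x.val))) a =
        Equiv.swap (qE y x) 10 a := by decide +kernel

theorem wX_perm : ∀ y x : Fin 13, y ≠ x → y < 12 → x < 12 →
    okW 11 (wX y.val x.val) (lenX y.val x.val) = true ∧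
      ∀ a, wpc (prs (wX y.val x.val) (lenX y.val x.val)) a = tauE y x a := by decide +kernel

theorem wRE_perm : ∀ y x : Fin 13, y ≠ x → y < 12 → x < 12 →
    okW 12 (wRE y.val (zl y.val x.val)) (lenRE y.val (zl y.val x.val)) = true ∧
      ∀ a, wpc (prs (wRE y.val (zl y.val x.val)) (lenRE y.val (zl y.val x.val))) a =
        piE y x a := by decide +kernel

/-- the lane of `y` in the pair frame -/
theorem lyE_letters {y x : Fin 13} (hyx : y ≠ x) (hy : y < 12) (hx : x < 12)
    {B : Finset (Finset (Fin 13))} {n X : ℕ} (hn : n ≤ 512)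
    (h : InX n X (Lay (moved (Equiv.swap y 11) B y))) :
    InX n (runC KL (lenY (zl y.val x.val)) (wY (zl y.val x.val)) X) (LYL (mapF (piE y x) B)) := by
  obtain ⟨h1, h2⟩ := wYE_perm y x hyx hy hx
  have h3 := h.run (N := 512) hn h1
  rw [← KL_eq, Equiv.ext h2] at h3
  rw [LYL_piE hyx hy hx]
  exact h3

/-- the lane of `x` in the pair frame -/
theorem lxE_letters {y x : Fin 13} (hyx : y ≠ x) (hy : y < 12) (hx : x < 12)
    {B : Finset (Finset (Fin 13))} {n X : ℕ} (hn : n ≤ 512)
    (h : InX n X (Lay (moved (Equiv.swap x 11) B x))) :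
    InX n (runC KL (lenX y.val x.val) (wX y.val x.val) X) (LZL (mapF (piE y x) B)) := by
  obtain ⟨h1, h2⟩ := wX_perm y x hyx hy hx
  have h3 := h.run (N := 512) hn h1
  rw [← KL_eq, Equiv.ext h2] at h3
  rw [LZL_piE hyx hy hx]
  exact h3

/-- the root cube in the pair frame -/
theorem rootE_letters {y x : Fin 13} (hyx : y ≠ x) (hy : y < 12) (hx : x < 12)
    (D : Finset (Finset (Fin 13))) :
    runC 4096 (lenRE y.val (zl y.val x.val)) (wRE y.val (zl y.val x.val)) (cub 12 D) % 2 ^ 4096 =
      cub 12 (mapF (piE y x) D) := by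
  obtain ⟨h1, h2⟩ := wRE_perm y x hyx hy hx
  have h3 := runC_one (n := 12) (by norm_num) h1 D
  rw [Equiv.ext h2, fld_mod] at h3
  have e : 2 ^ 12 * 1 = 4096 := by norm_num
  rw [e] at h3
  exact h3

/-- the law of the product -/
theorem acc_prodE {P : Ent → Ent → Prop} {f : Ent → Ent → Cb} {l l2 : List Ent}
    (h : ∀ a ∈ l, ∀ b ∈ l2, Acc (P a b) (f a b)) :
    Acc (∀ a ∈ l, ∀ b ∈ l2, P a b) (prodE f l l2) := by
  unfold prodE
  exact acc_loopL fun a ha => acc_loopL fun b hb => h a ha b hb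

end Pool.Agent.Helper41.TY
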