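import Pool.Agent.Helper38.TY.CenFn
import Pool.Agent.Helper49.TY.PairE

/-!
MP_8ee768_co, project TH-Y', stages E and B1a: the kernel function of one centre.

The centre is the point `12` with link `fam 12 4 r`. The number `C` holds helper38's records of the positions of
excess at least one (`y`, to be brought to the point 11), the number `Z` records of the same form for the positions of
excess zero (`x`, to be brought to the point 10). The rows of `y` are cut below the first lane of class at least `j`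
(helper49's `rowJ`, `nlJ`); the types from 983 on (pair degree above 21) have no lanes. The pairs are all
`(y, x)`: entries of `y` outer, entries of `x` inner.

Pair frame: exchange `y, 11`, then `z, 10`, where `z` is the place of `x` (`x`, or `y` if `x = 11`).
-/

set_option autoImplicit false
set_option exponentiation.threshold 2000000

namespace Pool.Agent.Helper41.TY

open Pool.Agent.Helper63.SIMD
open Pool.Agent.Helper63.TY (Cb loopL)
open Pool.Agent.Helper38.TY
open Pool.Agent.Helper49.TY (hmE)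

/-! ## Pair frames -/

/-- the letter of the exchange of `a` and `b` -/
def let2 (a b : ℕ) : ℕ :=
  ite0 (Nat.ble a b) (Nat.add b (Nat.mul 16 a)) (Nat.add a (Nat.mul 16 b))

/-- letters of the list of `x` -/
def lenX (y x : ℕ) : ℕ :=
  ite0 (Nat.beq y 10) (ite0 (Nat.beq y 11) (ite0 (Nat.ble x 9) 1 2) (ite0 (Nat.ble x 9) 0 1)) 0
def wX (y x : ℕ) : ℕ :=
  ite0 (Nat.beq y 11) (Nat.add (Nat.add y 160) (Nat.mul 256 (let2 y x))) (Nat.add x 160)

/-- letters of the root cube (12 points) -/
def lenRE (y z : ℕ) : ℕ := ite0 (Nat.beq y 11) (Nat.succ (lenY z)) (lenY z)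
def wRE (y z : ℕ) : ℕ := ite0 (Nat.beq y 11) (Nat.add (Nat.add y 176) (Nat.mul 256 (wY z))) (wY z)

/-! ## The centre -/

/-- one pair; `cbK R h k` prepares the callback for the root cube `R` (4096 bits, pair frame) and the mask `h` of
the neighbours of the centre, and calls `k` with it -/
noncomputable def pairE (cbK : ℕ → ℕ → ((ℕ → ℕ → Cb) → Bool) → Bool) (M R m : ℕ) (a b : Ent) : Cb := fun s c =>
  frS a.X (zl a.p b.p) fun z => frS z (lenY z) fun ly => frS z (wY z) fun wy =>
    frS z (lenX a.p b.p) fun lx => frS z (wX a.p b.p) fun wx =>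
      frS a.X (runD 4096 (lenRE a.p z) (wRE a.p z) R) fun R' => frS a.X (hmE m a.p b.p) fun h =>
        cbK R' h fun cb => (fun Y Z => eng cb (cutL M a.n Y) (cutL M b.n Z) s c)
          (runD KL ly wy a.Y) (runD KL lx wx b.X)

/-- all pairs of two lists -/
noncomputable def prodE (f : Ent → Ent → Cb) (l l2 : List Ent) : Cb := loopL (fun a => loopL (f a) l2) l

/-- THE CENTRE: `v` = code of the centre (495 bits) and its zero set (12 bits, at 495), `R` = its cube; rows `rowy`
with `nly` lanes for the records `C`, rows `rowx` with `nlx` lanes for the records `Z` -/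
noncomputable def cenEK (rowy : ℕ → List ℕ) (nly : ℕ → ℕ) (rowx : ℕ → List ℕ) (nlx : ℕ → ℕ)
    (cbK : ℕ → ℕ → ((ℕ → ℕ → Cb) → Bool) → Bool) (v R C Z : ℕ) : Cb := fun s c =>
  frS C (Nat.sub (Nat.pow 2 131072) 1) fun M =>
    frS C R fun R => frS C (Nat.land C 15) fun n => frS C (Nat.shiftRight C 4) fun C' =>
      frS C (Nat.land Z 15) fun n2 => frS C (Nat.shiftRight Z 4) fun Z' =>
        entsK rowy nly n C' fun m l => entsK rowx nlx n2 Z' fun m2 l2 =>
          ite0 (Nat.beq m (Nat.xor 4095 (Nat.shiftRight v 495))) false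
            (ite0 (Nat.beq m2 (Nat.shiftRight v 495)) false
              (prodE (pairE cbK M R m) l l2 s c))

/-- the centre without the forced evaluations -/
noncomputable def cenEF (rowy : ℕ → List ℕ) (nly : ℕ → ℕ) (rowx : ℕ → List ℕ) (nlx : ℕ → ℕ)
    (cbK : ℕ → ℕ → ((ℕ → ℕ → Cb) → Bool) → Bool) (v R C Z : ℕ) : Cb := fun s c =>
  ite0 (Nat.beq (maskF (Nat.land C 15) (C >>> 4)) (Nat.xor 4095 (Nat.shiftRight v 495))) false
    (ite0 (Nat.beq (maskF (Nat.land Z 15) (Z >>> 4)) (Nat.shiftRight v 495)) false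
      (prodE (pairE cbK (2 ^ 131072 - 1) R (maskF (Nat.land C 15) (C >>> 4)))
        (entsF rowy nly (Nat.land C 15) (C >>> 4)) (entsF rowx nlx (Nat.land Z 15) (Z >>> 4)) s c))

theorem cenEK_eq (rowy : ℕ → List ℕ) (nly : ℕ → ℕ) (rowx : ℕ → List ℕ) (nlx : ℕ → ℕ)
    (cbK : ℕ → ℕ → ((ℕ → ℕ → Cb) → Bool) → Bool) (v R C Z s : ℕ) (c : ℕ → Bool) :
    cenEK rowy nly rowx nlx cbK v R C Z s c = cenEF rowy nly rowx nlx cbK v R C Z s c := by
  unfold cenEK
  simp only [frS_eq]
  rw [entsK_eq, entsK_eq]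
  rfl

/-! ## Parts of a centre -/

/-- a part of the centre: `C`, `Z` hold some of the records -/
noncomputable def cenEP (rowy : ℕ → List ℕ) (nly : ℕ → ℕ) (rowx : ℕ → List ℕ) (nlx : ℕ → ℕ)
    (cbK : ℕ → ℕ → ((ℕ → ℕ → Cb) → Bool) → Bool) (v R C Z : ℕ) : Cb := fun s c =>
  frS C (Nat.sub (Nat.pow 2 131072) 1) fun M =>
    frS C R fun R => frS C (Nat.xor 4095 (Nat.shiftRight v 495)) fun m =>
      frS C (Nat.land C 15) fun n => frS C (Nat.shiftRight C 4) fun C' =>
        frS C (Nat.land Z 15) fun n2 => frS C (Nat.shiftRight Z 4) fun Z' =>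
          entsK rowy nly n C' fun _ l => entsK rowx nlx n2 Z' fun _ l2 =>
            prodE (pairE cbK M R m) l l2 s c

/-- the part without the forced evaluations -/
noncomputable def cenEPF (rowy : ℕ → List ℕ) (nly : ℕ → ℕ) (rowx : ℕ → List ℕ) (nlx : ℕ → ℕ)
    (cbK : ℕ → ℕ → ((ℕ → ℕ → Cb) → Bool) → Bool) (v R C Z : ℕ) : Cb := fun s c =>
  prodE (pairE cbK (2 ^ 131072 - 1) R (Nat.xor 4095 (Nat.shiftRight v 495)))
    (entsF rowy nly (Nat.land C 15) (C >>> 4)) (entsF rowx nlx (Nat.land Z 15) (Z >>> 4)) s c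

theorem cenEP_eq (rowy : ℕ → List ℕ) (nly : ℕ → ℕ) (rowx : ℕ → List ℕ) (nlx : ℕ → ℕ)
    (cbK : ℕ → ℕ → ((ℕ → ℕ → Cb) → Bool) → Bool) (v R C Z s : ℕ) (c : ℕ → Bool) :
    cenEP rowy nly rowx nlx cbK v R C Z s c = cenEPF rowy nly rowx nlx cbK v R C Z s c := by
  unfold cenEP
  simp only [frS_eq]
  rw [entsK_eq, entsK_eq]
  rfl

end Pool.Agent.Helper41.TY
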